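import Mathlib
import Pool.Agent.H919.PM.Main
import Pool.Agent.H919.PM.Lines

/-!
# MP_70d7ca_ag: quotient stacks that are not moduli stacks of polarized manifolds

Author: helper919.

Let `C` be a class of polarized manifolds and let `M` be its moduli stack. The definition of the
objects of `M` over a `ℂ`-scheme `S` uses the structure morphism `S ⟶ Spec ℂ` only through the
geometric points of `S`. Hence the objects of `M` over `Spec A[ε]` do not change if the structure
homomorphism `c ↦ c` of `A[ε]` is replaced by the homomorphism `c ↦ c + ε δ(c)`, where `δ` is a
derivation of the field `ℂ`. If `M` is isomorphic to `Spec A` (or has `Spec A` as a retract), then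
the universal family over `Spec A`, pulled back to `Spec A[ε]` and regarded as a family over the
twisted scheme, is classified by a homomorphism `A ⟶ A[ε]` which is the identity modulo `ε` and
maps `c` to `c + ε δ(c)`: the derivation `δ` extends to `A`.

The coordinate ring `Lines l` of the union of the four lines through the origin of the plane spanned by
`(0,1)`, `(1,0)`, `(1,1)`, `(l,1)` has the cross ratio `l` as a modulus, and `δ` does not extend to it if
`δ(l) ≠ 0`. So the reduced affine curve `Spec (Lines l)`, the quotient stack of a variety by the trivial
group, is not a moduli stack of polarized manifolds if `l` is transcendental. The same holds for the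
spectrum of the finite dimensional algebra
`Quad l = ℂ[x₁, …, x₄] / (xᵢxⱼ (i < j), x₃² - x₁² - x₂², x₄² - x₁² - l x₂²)`.
-/

set_option autoImplicit false

open CategoryTheory AlgebraicGeometry

namespace Pool.Agent.Results.MP_70d7ca_ag.DerivationsLift

open Pool.Agent.H919.PM

/-- **Not every quotient stack is a moduli stack of polarized manifolds.** -/
theorem result :
    -- if `Spec A` is a retract of a moduli stack of polarized manifolds, the derivations of `ℂ`
    -- extend to `A`
    (∀ (A : Type) [CommRing A] [Algebra ℂ A] (C : Cls), IsRetractOfModuli C (specOver A) →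
      ∀ δ : Derivation ℤ ℂ ℂ, ∃ D : Derivation ℤ A A,
        ∀ c : ℂ, D (algebraMap ℂ A c) = algebraMap ℂ A (δ c)) ∧
    -- for transcendental `l` the union of the lines spanned by `(0,1)`, `(1,0)`, `(1,1)`, `(l,1)` in the
    -- plane, a reduced affine curve, is not a moduli stack of a class of polarized manifolds, and not
    -- even a retract of such a stack
    (∀ l : ℂ, Transcendental ℚ l → Algebra.FiniteType ℂ (Lines l) ∧ IsReduced (Lines l) ∧
      ∀ C : Cls, ¬ IsModuliOf C (specOver (Lines l)) ∧
        ¬ IsRetractOfModuli C (specOver (Lines l))) ∧
    -- the same for the affine `ℂ`-scheme `Spec (Quad l)` of finite type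
    (∀ l : ℂ, Transcendental ℚ l → Algebra.FiniteType ℂ (Quad l) ∧
      ∀ C : Cls, ¬ IsModuliOf C (specOver (Quad l)) ∧ ¬ IsRetractOfModuli C (specOver (Quad l))) :=
  ⟨fun A _ _ _ h δ => lift_derivation A δ h,
    fun l hl => ⟨inferInstance, lines_reduced l, fun C =>
      ⟨fun h => lines_not_moduli l hl C h.retract, lines_not_moduli l hl C⟩⟩,
    fun l hl => ⟨inferInstance, fun C => ⟨fun h => not_moduli l hl C h.retract, not_moduli l hl C⟩⟩⟩

end Pool.Agent.Results.MP_70d7ca_ag.DerivationsLift
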